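import Pool.Agent.Lib.MP_4770bc_pr.Facts

/-!
A non-amenable graph on which the greedy random walk (uniform rule) is recurrent.
-/

open MeasureTheory

namespace Pool.Agent.Results.MP_4770bc_pr.NonAmenableRecurrent

open Pool.Agent.Lib.MP_4770bc_pr

/-- There are an infinite, connected, locally finite, non-amenable simple graph `G` (which even
satisfies the stronger isoperimetric inequality with the sum of the degrees in place of the
number of vertices) and a vertex `v₀` such that the greedy random walk with the uniform rule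
started at `v₀` exists, and every such walk returns to `v₀` infinitely often almost surely. -/
theorem result : ∃ (V : Type) (G : SimpleGraph V) (v₀ : V),
    Infinite V ∧ G.Connected ∧ (∀ v, (G.neighborSet v).Finite) ∧ NonAmenable G ∧
    (∃ c : ℝ, 0 < c ∧ ∀ S : Finset V,
      c * ∑ v ∈ S, ((G.neighborSet v).ncard : ℝ) ≤ (edgeBoundary G S).ncard) ∧
    (∃ (Ω : Type) (_ : MeasurableSpace Ω) (P : Measure Ω) (X : ℕ → Ω → V), IsGRW G v₀ P X) ∧
    ∀ (Ω : Type) (_ : MeasurableSpace Ω) (P : Measure Ω) (X : ℕ → Ω → V),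
      IsGRW G v₀ P X → ∀ᵐ ω ∂P, {t | X t ω = v₀}.Infinite := by
  refine ⟨V0 ⊕ E0, Gr, Sum.inl (V0.hub 0), inferInstance, Gr_connected, Sd_finite cert,
    Gr_nonAmenable, ⟨1 / 759, by norm_num, Gr_iso⟩, ?_, ?_⟩
  · apply exists_GRW Gr (Sd_finite cert)
    intro v
    obtain ⟨w, hw⟩ := Nb_nonempty v
    exact ⟨w, (mem_Nb v w).mp hw⟩
  · intro Ω _ P X hX
    filter_upwards [recurrent_of_cert cert hX] with ω hω
    rw [Set.infinite_iff_exists_gt]
    intro T
    obtain ⟨t, ht, hx⟩ := hω (T + 1)
    exact ⟨t, hx, by omega⟩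

end Pool.Agent.Results.MP_4770bc_pr.NonAmenableRecurrent
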